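import Pool.Agent.helper747_se.Size

/-!
Reductions from sparse systems of linear equations over the field of two elements to small-set
expansion that are local (each edge is determined by few right-hand sides, membership of a vertex
in the honest set by few variables) must be large: if in the completeness case there is a set of
`K = δ N` vertices of expansion `ε`, and in the soundness case all sets of `K` vertices have
expansion at least `γ`, then the number `N` of vertices is at least `(c δ γ ^ 6 n / w) ^ (1 / ρ)` with
`ρ` of order `ε / γ ^ 3`. For the problem `SSE (η, δ)`, in which `ε = η` and `γ = 1 - η`, the size is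
at least `(c δ n / w) ^ (c / η)`. This is unconditional.

Proof. Average the pseudo-expectations of the system over all right-hand sides. The average
expansion of the honest sets is attained, up to a factor two, by a solution of a high level of the
mixed hierarchy (Sherali-Adams plus the basic semidefinite program) for the graph of some
right-hand side which is violated by every assignment in almost half of the equations. If the graph
is small, such a solution can be rounded to a set of exactly `K` vertices: remove greedily small
sets with few edges to the rest; outside of their union `U`, with the edges to `U` turned into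
loops, all sets of size `γ K / 8` expand, so that the lazy walk started at any point has square norm
`O (1 / (γ ^ 5 K))` after `O (log N / γ ^ 2)` steps, and covariances which are large along the edges
are large globally; conditioning on the values of few vertices therefore makes almost all
memberships outside `U` certain. The resulting set is completed to size `K` by a part of `U`.
-/

set_option autoImplicit false

namespace Pool.Agent.Results.MP_8d8c46_lc.LocalReductionSize

open Finset

/-- the left-hand side of equation `j`, `x (c j 0) + x (c j 1) + x (c j 2)`, at the assignment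
`x` -/
def lhs {n m : ℕ} (c : Fin m → Fin 3 → Fin n) (x : Fin n → ZMod 2) (j : Fin m) : ZMod 2 :=
  ∑ i, x (c j i)

/-- every assignment violates at least `(1 / 2 - η) * m` of the equations `lhs c x j = b j` -/
def IsFar {n m : ℕ} (c : Fin m → Fin 3 → Fin n) (η : ℝ) (b : Fin m → ZMod 2) : Prop :=
  ∀ x : Fin n → ZMod 2, (1 / 2 - η) * m ≤ ((univ.filter fun j => lhs c x j ≠ b j).card : ℝ)

/-- the number of edges with exactly one endpoint in `T` -/
noncomputable def boundary {V : Type} (G : SimpleGraph V) (T : Finset V) : ℕ :=
  {p : V × V | p.1 ∈ T ∧ p.2 ∉ T ∧ G.Adj p.1 p.2}.ncard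

/-- A local reduction from the systems with left-hand sides `lhs c` to the problem of finding, in a
`D`-regular graph with vertex set `V`, a set of `K` vertices of small expansion: `G b` is the graph
for the right-hand side `b`, and `S x` is the honest set for the assignment `x`, to be used in the
graph of the right-hand side `lhs c x`, which `x` solves. -/
structure IsReduction {n m : ℕ} {V : Type} (c : Fin m → Fin 3 → Fin n)
    (G : (Fin m → ZMod 2) → SimpleGraph V) (S : (Fin n → ZMod 2) → Finset V) (D K q w : ℕ)
    (ε : ℝ) : Prop where
  /-- the graphs are `D`-regular -/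
  regular : ∀ b v, ((G b).neighborSet v).ncard = D
  /-- adjacency of two vertices is determined by `q` entries of the right-hand side -/
  reads : ∀ u v, ∃ T : Finset (Fin m), T.card ≤ q ∧
    ∀ b b', (∀ j ∈ T, b j = b' j) → ((G b).Adj u v ↔ (G b').Adj u v)
  /-- the honest sets have `K` elements -/
  size : ∀ x, (S x).card = K
  /-- membership in the honest set is determined by the values of `w` variables -/
  local_sets : ∀ v, ∃ T : Finset (Fin n), T.card ≤ w ∧
    ∀ x x', (∀ i ∈ T, x i = x' i) → (v ∈ S x ↔ v ∈ S x')
  /-- on average over the assignments, the honest set has expansion at most `ε` -/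
  complete : ∑ x : Fin n → ZMod 2, (boundary (G (lhs c x)) (S x) : ℝ) ≤ ε * (D * K) * 2 ^ n

/-- For every `η > 0` there are, for all large `n`, sparse systems of `m ≤ M * n` equations in `n`
variables over the field of two elements, with three different variables in each equation, some of
whose right-hand sides are far from satisfiable, and such that every local reduction from these
systems to small-set expansion with sets of size `K`, completeness `ε` and soundness `γ` (for the
right-hand sides that are far from satisfiable all sets of `K` vertices have expansion at least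
`γ`) has more than `(c0 γ ^ 6 (K / |V|) n / w) ^ (1 / ρ)` vertices, whenever
`2 ^ 16 ε ≤ ρ γ ^ 3`. -/
theorem result (η : ℝ) (hη : 0 < η) :
    ∃ M : ℕ, ∃ c0 : ℝ, 0 < c0 ∧ ∃ n0 : ℕ, ∀ n : ℕ, n0 ≤ n →
      ∃ (m : ℕ) (c : Fin m → Fin 3 → Fin n),
        n ≤ 2 * m ∧ m ≤ M * n ∧ (∀ j, Function.Injective (c j)) ∧ (∃ b, IsFar c η b) ∧
        ∀ (V : Type) [Fintype V] (G : (Fin m → ZMod 2) → SimpleGraph V)
          (S : (Fin n → ZMod 2) → Finset V) (D K q w : ℕ) (ε γ ρ : ℝ),
          IsReduction c G S D K q w ε → 1 ≤ D → 1 ≤ K → (q : ℝ) ≤ c0 * n → 1 ≤ w →
          0 < ε → 0 < γ → γ ≤ 1 → 0 < ρ → ρ ≤ 1 → 2 ^ 16 * ε ≤ ρ * γ ^ 3 →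
          (∀ b, IsFar c η b → ∀ T : Finset V, T.card = K →
            γ * (D * K) ≤ (boundary (G b) T : ℝ)) →
          (c0 * γ ^ 6 * (K / Fintype.card V) * n / w) ^ (1 / ρ) < Fintype.card V := by
  classical
  obtain ⟨M, c0, hc0, n0, h0⟩ := Pool.Agent.helper747_se.size_sse η hη
  refine ⟨M, c0, hc0, n0, fun n hn => ?_⟩
  obtain ⟨m, c, h1, h2, h3, h4, h5⟩ := h0 n hn
  refine ⟨m, c, h1, h2, h3, h4, ?_⟩
  intro V _ G S D K q w ε γ ρ hR hD hK hq hw hε hγ hγ1 hρ hρ1 hερ hsound
  have hbd : ∀ (b : Fin m → ZMod 2) (T : Finset V),
      Pool.Agent.helper747_se.bd (G b).Adj T = (boundary (G b) T : ℝ) := by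
    intro b T
    unfold Pool.Agent.helper747_se.bd boundary
    have h6 : {p : V × V | p.1 ∈ T ∧ p.2 ∉ T ∧ (G b).Adj p.1 p.2} =
        ((univ.filter fun p : V × V => p.1 ∈ T ∧ p.2 ∉ T ∧ (G b).Adj p.1 p.2 : Finset (V × V)) :
          Set (V × V)) := by
      ext p; simp
    rw [h6, Set.ncard_coe_finset]
  refine h5 V (fun b => (G b).Adj) S D K q w ε γ ρ (fun b u v h => h.symm) ?_ hR.reads hR.size
    hR.local_sets ?_ hD hK hq hw hε hγ hγ1 hρ hρ1 hερ ?_
  · intro b u
    rw [← hR.regular b u]
    have h6 : (G b).neighborSet u = ((univ.filter fun v => (G b).Adj u v : Finset V) : Set V) := by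
      ext v; simp
    rw [h6, Set.ncard_coe_finset, Finset.card_filter]
    push_cast
    rfl
  · refine le_trans (le_of_eq ?_) hR.complete
    exact Finset.sum_congr rfl fun x _ => hbd (lhs c x) (S x)
  · intro b hb T hT
    rw [hbd]
    exact hsound b hb T hT

end Pool.Agent.Results.MP_8d8c46_lc.LocalReductionSize
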